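import Pool.Agent.W289.CG.Stm

/-!
# CG-EMB
-/

set_option autoImplicit false

namespace Pool.Agent.W290.CG

open Polynomial NumberField nonZeroDivisors Pool.Agent.W289.CG

/-- the polynomial `L A + s ^ m` -/
noncomputable def pF {n : ℕ} (a : Fin n → ℤ) (L r : ℤ) : ℤ[X] := C L * pA a + C r

lemma pF_map {n : ℕ} (a : Fin n → ℤ) (L r : ℤ) (hL : L ≠ 0) :
    ((pF a L r).map (algebraMap ℤ ℚ)).natDegree = n := by
  unfold pF pA
  rw [Polynomial.map_add, Polynomial.map_mul, map_C, map_C, natDegree_add_C, Polynomial.map_prod]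
  rw [natDegree_C_mul (by simpa using hL)]
  have : ∀ i, (X - C (a i)).map (algebraMap ℤ ℚ) = X - C ((a i : ℚ)) := by
    intro i; simp
  simp only [this]
  rw [natDegree_finsetProd_X_sub_C_eq_card, Finset.card_univ, Fintype.card_fin]

theorem emb : TaskEmb := by
  intro n k D m s t L K _ _ θ q hq x hfin hn hL hF hT
  obtain ⟨_, hc, hFx, hLt, hd⟩ := hT
  obtain ⟨hLc, hθ, hgen⟩ := hF
  have hqp : Prime (q : ℤ) := Nat.prime_iff_prime_int.mp hq.out
  have hqL : ¬ (q : ℤ) ∣ L := by
    intro h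
    apply hLt
    rw [← hLc]
    exact h.mul_right _
  set F : ℤ[X] := pF D.a L (s ^ m) with hFdef
  have hev : ∀ y : ℤ, F.eval y = L * (pA D.a).eval y + s ^ m := by
    intro y; rw [hFdef]; unfold pF; simp
  have hder : ∀ y : ℤ, F.derivative.eval y = L * (derivative (pA D.a)).eval y := by
    intro y; rw [hFdef]; unfold pF
    generalize s ^ m = r
    simp only [derivative_add, derivative_mul, derivative_C, eval_add, eval_mul, eval_C, zero_mul,
      zero_add, add_zero, eval_zero]
  have h1 : (q : ℤ) ∣ F.eval x := by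
    have h2 : (q : ℤ) ∣ D.c * F.eval x := by
      have e : D.c * F.eval x = t ^ m * (pA D.a).eval x - s ^ m * ((pA D.a).eval x - D.c) := by
        rw [hev]
        linear_combination ((pA D.a).eval x) * hLc
      rw [e]; exact hFx
    exact (hqp.dvd_or_dvd h2).resolve_left hc
  have h2 : ¬ (q : ℤ) ∣ F.derivative.eval x := by
    rw [hder]
    intro h
    exact (hqp.dvd_or_dvd h).elim hqL hd
  -- Hensel
  have ha1 : aeval (x : ℤ_[q]) F = ((F.eval x : ℤ) : ℤ_[q]) := by
    rw [show (x : ℤ_[q]) = algebraMap ℤ ℤ_[q] x by simp, aeval_algebraMap_apply]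
    simp
  have ha2 : aeval (x : ℤ_[q]) F.derivative = ((F.derivative.eval x : ℤ) : ℤ_[q]) := by
    rw [show (x : ℤ_[q]) = algebraMap ℤ ℤ_[q] x by simp, aeval_algebraMap_apply]
    simp
  have hn1 : ‖aeval (x : ℤ_[q]) F‖ < 1 := by
    rw [ha1]; exact (PadicInt.norm_int_lt_one_iff_dvd _).mpr h1
  have hn2 : ‖aeval (x : ℤ_[q]) F.derivative‖ = 1 := by
    rw [ha2]
    refine le_antisymm (PadicInt.norm_le_one _) ?_
    by_contra hcon
    exact h2 ((PadicInt.norm_int_lt_one_iff_dvd _).mp (not_le.mp hcon))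
  obtain ⟨z, hz, hzx, -, -⟩ := hensels_lemma (p := q) (F := F) (a := (x : ℤ_[q]))
    (by rw [hn2]; simpa using hn1)
  -- the minimal polynomial
  have hint : IsIntegral ℚ θ := Algebra.IsIntegral.isIntegral θ
  have hFθ : aeval θ (F.map (algebraMap ℤ ℚ)) = 0 := by
    rw [aeval_map_algebraMap, hFdef]
    unfold pF pA
    simp only [map_add, map_mul, aeval_C, map_prod, map_sub, aeval_X]
    simpa using hθ
  have hdvd := minpoly.dvd ℚ θ hFθ
  have hdeg1 : (F.map (algebraMap ℤ ℚ)).natDegree = n := pF_map _ _ _ hL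
  have hdeg2 : (minpoly ℚ θ).natDegree = n := by
    rw [← IntermediateField.adjoin.finrank hint, hgen, IntermediateField.finrank_top', hfin]
  have hF0 : F.map (algebraMap ℤ ℚ) ≠ 0 := by
    intro h
    rw [h, natDegree_zero] at hdeg1
    omega
  obtain ⟨w, hw⟩ := hdvd
  have hw0 : w ≠ 0 := by
    rintro rfl
    rw [mul_zero] at hw
    exact hF0 hw
  have hwd : w.natDegree = 0 := by
    have h3 := congrArg natDegree hw
    rw [natDegree_mul (minpoly.ne_zero hint) hw0, hdeg1, hdeg2] at h3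
    omega
  have hwC : w = C (w.coeff 0) := eq_C_of_natDegree_eq_zero hwd
  have hw00 : w.coeff 0 ≠ 0 := by
    intro h
    rw [h, C_0] at hwC
    exact hw0 hwC
  have hzF : aeval (z : ℚ_[q]) (F.map (algebraMap ℤ ℚ)) = 0 := by
    rw [aeval_map_algebraMap]
    have h3 : aeval (algebraMap ℤ_[q] ℚ_[q] z) F = algebraMap ℤ_[q] ℚ_[q] (aeval z F) :=
      aeval_algebraMap_apply ℚ_[q] z F
    rw [hz, map_zero] at h3
    exact h3
  have hzm : aeval (z : ℚ_[q]) (minpoly ℚ θ) = 0 := by
    rw [hw, map_mul, hwC, aeval_C] at hzF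
    rcases mul_eq_zero.mp hzF with h | h
    · exact h
    · exact absurd ((map_eq_zero _).mp h) hw00
  -- the embedding
  let pb : PowerBasis ℚ K := (IntermediateField.adjoin.powerBasis hint).map
    ((IntermediateField.equivOfEq hgen).trans IntermediateField.topEquiv)
  have hpb : pb.gen = θ := by
    simp only [pb, PowerBasis.map_gen, IntermediateField.adjoin.powerBasis_gen]
    rfl
  refine ⟨(pb.lift (z : ℚ_[q]) (by rw [hpb]; exact hzm)).toRingHom, z, ?_, ?_⟩
  · have := pb.lift_gen (z : ℚ_[q]) (by rw [hpb]; exact hzm)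
    exact (congrArg (fun y => (pb.lift (z : ℚ_[q]) (by rw [hpb]; exact hzm)) y) hpb.symm).trans
      this
  · have h4 : ‖z - (x : ℤ_[q])‖ < 1 := by
      rw [hn2] at hzx; exact hzx
    have h5 : z - (x : ℤ_[q]) ∈ RingHom.ker (PadicInt.toZMod (p := q)) := by
      rw [PadicInt.ker_toZMod, IsLocalRing.mem_maximalIdeal]
      exact PadicInt.mem_nonunits.mpr h4
    have h6 := (RingHom.mem_ker).mp h5
    rw [map_sub, sub_eq_zero] at h6
    rw [h6]
    exact map_intCast _ x

end Pool.Agent.W290.CG
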